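import Mathlib
import Pool.Agent.K1H82.LQ.Main
import Pool.Agent.Y676.Tsm
import Pool.Agent.Y660.TS.Rnk
import Pool.Agent.Y660.TS.Mom
import Pool.Agent.Y46.KEY.Key
import Pool.Agent.W307.RT.Tors

/-!
# Small twists with trivial 2-primary part of Ш in every local class

Let `M ≥ 1`. Two nonzero integers are in the same local class if their product is positive and a
square in `ℚ_p` for all the primes `p` dividing `M`. For almost all elliptic curves `E` over `ℚ` with
full rational 2-torsion, ordered by height, every local class contains many small twists `E_d` with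
finitely many rational points and trivial 2-primary part of Ш: there is `D₀`, `|D₀| ≤ 8 M²`, such that
one can take `d = D₀ q` for a positive proportion of the primes `q` up to any bound `Q ≥ (log H) ^ C`,
and each of these `q` is in an infinite set `S` of primes such that one can take `d = D₀ n` for all the
products `n` of an odd number of different elements of `S`. Also at least `X² / (log X) ^ C` of the
curves `y² = x (x - a) (x - b)`, `|a|, |b| ≤ X`, with `(a, b)` in any given residue class modulo `M` and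
in any given open cone, have trivial 2-primary part of Ш and finitely many rational points
themselves, and have such twists `d = D₀ n` in every local class, where `|D₀| q ≤ (log X) ^ C` for one
element `q` of `S`.

The proof. Every local class has an element `e` with `|e| ≤ 8 M²`. The typical pair `(a, b)` of
`LocalConditions` and `OddProductTwists` remains typical if it is multiplied by `e`, as the primes
`> 8 M²` which divide `e a · e b · (e a - e b)` are those which divide `a b (a - b)`. So for each of the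
finitely many `e` there are signs such that the twist by `e q` is trivial for all the primes `q` which
are squares at the small primes and have these signs at the large bad primes; for almost all pairs
the number of these signs is, for all the `e`, a positive proportion, and all the signs are equally
frequent among the primes up to a power of `log X`. For the second part the curve is multiplied by a
small good prime of the trivial class.
-/

set_option autoImplicit false

namespace Pool.Agent.Results.MP_e23604_nt.EveryLocalClass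

open Finset

open Pool.Agent.TH841.SH.D (Sha)

/-- the curve `y² = x³ + A x + B` over `ℚ` -/
def E (A B : ℤ) : WeierstrassCurve ℚ := ⟨0, 0, 0, (A : ℚ), (B : ℚ)⟩

/-- the quadratic twist by `d` of the curve `y² = x³ + A x + B`, `c = (A, B)` -/
def Tw (d : ℤ) (c : ℤ × ℤ) : WeierstrassCurve ℚ := E (d ^ 2 * c.1) (d ^ 3 * c.2)

open Classical in
/-- The pairs `(A, B)` of integers such that `4 A³ + 27 B² ≠ 0`, there is no prime `p` with
`p⁴ ∣ A` and `p⁶ ∣ B`, the height `max (4 |A|³) (27 B²)` is at most `H`, and `Z/2 x Z/2` embeds in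
the group of the rational points of `y² = x³ + A x + B`. (The bounds `|A|, |B| ≤ H` follow from the
bound of the height. Every elliptic curve over `ℚ` is isomorphic to `E A B` for exactly one pair
with the first two properties.) -/
noncomputable def Fam (H : ℕ) : Finset (ℤ × ℤ) :=
  ((Icc (-(H : ℤ)) H) ×ˢ (Icc (-(H : ℤ)) H)).filter (fun c : ℤ × ℤ =>
    4 * c.1 ^ 3 + 27 * c.2 ^ 2 ≠ 0 ∧ 4 * |c.1| ^ 3 ≤ H ∧ 27 * c.2 ^ 2 ≤ H ∧
    (∀ p : ℕ, p.Prime → ¬ ((p : ℤ) ^ 4 ∣ c.1 ∧ (p : ℤ) ^ 6 ∣ c.2)) ∧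
    ∃ f : ZMod 2 × ZMod 2 →+ (E c.1 c.2).toAffine.Point, Function.Injective f)

/-- the curve `y² = x (x - a) (x - b)` over `ℚ`; its quadratic twist by `d` is `L (d a) (d b)` -/
def L (a b : ℤ) : WeierstrassCurve ℚ := ⟨0, -((a : ℚ) + b), 0, (a : ℚ) * b, 0⟩

/-- `W` has finitely many rational points and the 2-primary component of its Tate-Shafarevich group
is zero -/
def Settled (W : WeierstrassCurve ℚ) : Prop :=
  Finite W.toAffine.Point ∧ AddCommGroup.primaryComponent (Sha W) 2 = ⊥

/-- `D` and `d` are in the same class in the multiplicative groups of `ℝ` and of `ℚ_p`, for all the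
primes `p` dividing `M`, modulo squares -/
def SameAt (M : ℕ) (D d : ℤ) : Prop :=
  0 < D * d ∧ ∀ (p : ℕ) [Fact p.Prime], p ∣ M → IsSquare ((D * d : ℤ) : ℚ_[p])

/-- `S` is an infinite set of primes, and for all the products `n` of an odd number of different
elements of `S` the integer `D₀ n` is in the local class of `d` and satisfies `P`. -/
def Odds (M : ℕ) (P : ℤ → Prop) (D₀ d : ℤ) (S : Set ℕ) : Prop :=
  S.Infinite ∧ (∀ s ∈ S, s.Prime) ∧ ∀ T : Finset ℕ, (T : Set ℕ) ⊆ S → Odd T.card →
    SameAt M (D₀ * (∏ s ∈ T, s : ℕ)) d ∧ P (D₀ * (∏ s ∈ T, s : ℕ))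

open Classical in
/-- For every nonzero `d` there is an integer `D₀` with `|D₀| ≤ 8 M²` such that at least
`κ Q / log Q` primes `q ≤ Q` are elements of such sets `S`. -/
def ManyInEveryClass (M Q : ℕ) (κ : ℝ) (P : ℤ → Prop) : Prop :=
  ∀ d : ℤ, d ≠ 0 → ∃ D₀ : ℤ, |D₀| ≤ 8 * (M : ℤ) ^ 2 ∧
    κ * Q / Real.log Q ≤ (((Icc 1 Q).filter (fun q => ∃ S : Set ℕ, q ∈ S ∧ Odds M P D₀ d S)).card : ℝ)

/-- For every nonzero `d` there are an integer `D₀` and a prime `q` with `|D₀| q ≤ B` such that `q` is
an element of such a set `S`. -/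
def SmallInEveryClass (M : ℕ) (B : ℝ) (P : ℤ → Prop) : Prop :=
  ∀ d : ℤ, d ≠ 0 → ∃ (D₀ : ℤ) (q : ℕ) (S : Set ℕ), (|D₀| : ℤ) * (q : ℝ) ≤ B ∧ q ∈ S ∧
    Odds M P D₀ d S

/-- The pairs `(a, b)` of integers with `|a|, |b| ≤ X` and with the local conditions `a ≡ a₀`,
`b ≡ b₀` modulo `M` and `(a, b) ∈ V` such that `y² = x (x - a) (x - b)` is an elliptic curve with
finitely many rational points and with trivial 2-primary part of Ш, and such that every local class
contains twists of size at most `(log X) ^ C` (and the further twists in `Odds`) with the same two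
properties. -/
def Good (C M : ℕ) (a₀ b₀ : ℤ) (V : Set (ℝ × ℝ)) (X : ℕ) : Set (ℤ × ℤ) :=
  {t | |t.1| ≤ X ∧ |t.2| ≤ X ∧ t.1 ≡ a₀ [ZMOD M] ∧ t.2 ≡ b₀ [ZMOD M] ∧
    ((t.1 : ℝ), (t.2 : ℝ)) ∈ V ∧ t.1 ≠ 0 ∧ t.2 ≠ 0 ∧ t.1 ≠ t.2 ∧ Settled (L t.1 t.2) ∧
    SmallInEveryClass M ((Real.log X) ^ C) (fun D => Settled (L (D * t.1) (D * t.2)))}

lemma Fam_eq (H : ℕ) : Fam H = Pool.Agent.W307.RT.Cv 2 H := by
  classical
  unfold Fam Pool.Agent.W307.RT.Cv
  apply filter_congr
  intro c _
  have h : Pool.Agent.W307.RT.HasT 2 (Pool.Agent.W307.RT.Sh c.1 c.2) ↔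
      ∃ f : ZMod 2 × ZMod 2 →+ (E c.1 c.2).toAffine.Point, Function.Injective f :=
    Pool.Agent.W307.RT.tors_iff
  rw [h]

lemma prim_of {G : Type} [AddCommGroup G] (h : ∀ x : G, x + x = 0 → x = 0) :
    AddCommGroup.primaryComponent G 2 = ⊥ := by
  rw [eq_bot_iff]
  intro x hx
  obtain ⟨j, hj⟩ : ∃ j : ℕ, (2 ^ j) • x = 0 := hx
  rw [AddSubgroup.mem_bot]
  induction j with
  | zero => rwa [pow_zero, one_smul] at hj
  | succ j ih =>
    apply ih
    apply h
    rw [← two_nsmul, ← mul_smul, ← pow_succ']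
    exact hj

lemma many_of {M Q : ℕ} {κ : ℝ} {P : ℤ → Prop} (h : Pool.Agent.K1H82.LQ.Wq M Q κ P) :
    ManyInEveryClass M Q κ P := h

lemma small_of {M : ℕ} {B : ℝ} {P : ℤ → Prop} (h : Pool.Agent.K1H82.LQ.Ws M B P) :
    SmallInEveryClass M B P := h

lemma settled_tr {a b : ℤ} (h : Pool.Agent.K1H97.WA.Tr (a : ℚ) (b : ℚ)) : Settled (L a b) :=
  ⟨h.fin, prim_of h.sha⟩

open Classical in
/-- **Theorem.** There is a constant `C` with the following properties.
(1) Let `M ≥ 1` and `ε > 0`. There is `κ > 0` such that for all large `H` and all `Q ≥ (log H) ^ C`, all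
but at most `ε * #Fam H` of the elliptic curves `E` over `ℚ` with full rational 2-torsion and height at
most `H` have this property: for every nonzero integer `d` there is an integer `D₀`, `|D₀| ≤ 8 M²`,
such that at least `κ Q / log Q` primes `q ≤ Q` are elements of infinite sets `S` of primes such that
for all the products `n` of an odd number of different elements of `S` (for example `n = q`), `D₀ n` and
`d` are in the same square class at the real place and at all the primes dividing `M`, and the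
quadratic twist of `E` by `D₀ n` has finitely many rational points and trivial 2-primary
Tate-Shafarevich group.
(2) For every modulus `M`, all residue classes `a₀`, `b₀` modulo `M` and every nonempty open cone `V`
in the plane, for all large `X` at least `X² / (log X) ^ C` pairs `(a, b)` of integers with
`|a|, |b| ≤ X`, `a ≡ a₀`, `b ≡ b₀` modulo `M` and `(a, b) ∈ V` give an elliptic curve
`E : y² = x (x - a) (x - b)` with finitely many rational points and trivial 2-primary
Tate-Shafarevich group such that for every nonzero integer `d` there are `D₀`, an infinite set `S` of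
primes as in (1) and `q ∈ S` with `|D₀| q ≤ (log X) ^ C`. -/
theorem result : ∃ C : ℕ,
    (∀ M : ℕ, 0 < M → ∀ ε : ℝ, 0 < ε → ∃ κ : ℝ, 0 < κ ∧ ∃ H₀ : ℕ, ∀ H : ℕ, H₀ ≤ H →
      ∀ Q : ℕ, (Real.log H) ^ C ≤ Q →
      (((Fam H).filter (fun c => ¬ ManyInEveryClass M Q κ (fun D => Settled (Tw D c)))).card : ℝ) ≤
        ε * ((Fam H).card : ℝ)) ∧
    ∀ M : ℕ, 0 < M → ∀ (a₀ b₀ : ℤ) (V : Set (ℝ × ℝ)), IsOpen V → V.Nonempty →
      (∀ v ∈ V, ∀ u : ℝ, 0 < u → u • v ∈ V) → ∃ X₀ : ℕ, ∀ X : ℕ, X₀ ≤ X →
        (X : ℝ) ^ 2 / (Real.log X) ^ C ≤ ((Good C M a₀ b₀ V X).ncard : ℝ) := by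
  refine ⟨Pool.Agent.K1H97.WA.CC, fun M hM ε hε => ?_, fun M hM a₀ b₀ V hV hne hcone => ?_⟩
  · obtain ⟨κ, hκ, H₀, h⟩ := Pool.Agent.K1H82.LQ.main_all
      (Pool.Agent.Y46.KEY.key_of Pool.Agent.Y660.TS.rnk Pool.Agent.Y676.Tsm.tsm)
      Pool.Agent.Y660.TS.mom M hM ε hε
    refine ⟨κ, hκ, H₀, fun H hH Q hQ => ?_⟩
    rw [Fam_eq]
    refine le_trans ?_ (h H hH Q hQ)
    refine Nat.cast_le.2 (card_le_card fun c hc => ?_)
    rw [mem_filter] at hc ⊢
    refine ⟨hc.1, fun h' => hc.2 (many_of (h'.mono fun D _ hD => ?_))⟩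
    exact ⟨hD.1, prim_of hD.2⟩
  · obtain ⟨⟨α, β⟩, hv⟩ := hne
    obtain ⟨δ, hδ, hball⟩ := Metric.isOpen_iff.1 hV _ hv
    obtain ⟨X₀, hX₀⟩ := Pool.Agent.K1H82.LQ.main_pairs M hM a₀ b₀ α β δ hδ
    refine ⟨X₀, fun X hX => (hX₀ X hX).trans ?_⟩
    have hfin : (Good Pool.Agent.K1H97.WA.CC M a₀ b₀ V X).Finite := by
      refine ((Set.finite_Icc (-(X : ℤ)) X).prod (Set.finite_Icc (-(X : ℤ)) X)).subset ?_
      intro t ht
      exact ⟨abs_le.1 ht.1, abs_le.1 ht.2.1⟩
    have hsub : (((Pool.Agent.Y676.Bx X).filter (fun t => Pool.Agent.K1H97.WA.LC M a₀ b₀ α β δ t ∧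
        Pool.Agent.K1H82.LQ.Pr M X t) : Finset (ℤ × ℤ)) : Set (ℤ × ℤ)) ⊆
          Good Pool.Agent.K1H97.WA.CC M a₀ b₀ V X := by
      intro t ht
      rw [Finset.mem_coe, Finset.mem_filter, Pool.Agent.Y676.mem_Bx] at ht
      obtain ⟨⟨⟨h1, h2⟩, h3, h4, h5⟩, h6, h7, h8⟩ := ht
      obtain ⟨u, hu, hu1, hu2⟩ := h6.re
      refine ⟨abs_le.2 h1, abs_le.2 h2, h6.ca, h6.cb, ?_, h3, h4, h5, settled_tr h7,
        small_of (h8.mono fun D _ hD => settled_tr hD.tw)⟩
      have hin : (u⁻¹ * (t.1 : ℝ), u⁻¹ * (t.2 : ℝ)) ∈ V := by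
        have hw : ∀ z γ : ℝ, |z - u * γ| < u * δ → |u⁻¹ * z - γ| < δ := by
          intro z γ hz
          have e : u⁻¹ * z - γ = u⁻¹ * (z - u * γ) := by
            rw [mul_sub, inv_mul_cancel_left₀ hu.ne']
          rw [e, abs_mul, abs_of_pos (inv_pos.2 hu)]
          calc u⁻¹ * |z - u * γ| < u⁻¹ * (u * δ) := mul_lt_mul_of_pos_left hz (inv_pos.2 hu)
            _ = δ := inv_mul_cancel_left₀ hu.ne' _
        apply hball
        rw [Metric.mem_ball, Prod.dist_eq, max_lt_iff, Real.dist_eq, Real.dist_eq]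
        exact ⟨hw _ _ hu1, hw _ _ hu2⟩
      have := hcone _ hin u hu
      rw [Prod.smul_mk, smul_eq_mul, smul_eq_mul, mul_inv_cancel_left₀ hu.ne',
        mul_inv_cancel_left₀ hu.ne'] at this
      exact this
    have h := Set.ncard_le_ncard hsub hfin
    rw [Set.ncard_coe_finset] at h
    exact_mod_cast h

end Pool.Agent.Results.MP_e23604_nt.EveryLocalClass
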