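import Mathlib
import Pool.Agent.K1H97.FU.Main
import Pool.Agent.Y676.Tsm
import Pool.Agent.Y660.TS.Rnk
import Pool.Agent.Y660.TS.Mom
import Pool.Agent.Y46.KEY.Key
import Pool.Agent.W307.RT.Tors

/-!
# Finite and unbounded 2-primary parts of Ш in the twist families of almost all curves

For almost all `k`-tuples of elliptic curves `E_1, …, E_k` over `ℚ` with full rational 2-torsion,
ordered by height, for a positive proportion of the primes `q` up to any bound `Q ≥ (log H) ^ C` and
for every choice of points `P_i` of order two of the curves `E_i` there is an infinite set of primes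
such that for every product `d` of `q` and of an even number `n` of different primes of the set: all
the twists of the curves `E_i` by `d` have finitely many rational points and trivial 2-primary parts
of their Tate-Shafarevich groups, and for the two points `P ≠ P_i` of order two of `E_i` the twists by
`d` of the curves `E_i / ⟨P⟩` have finitely many rational points, and 2-primary parts
`Ш[2 ^ ∞] = (ℤ / 2) ^ m` with `n - 3 ≤ m ≤ n + C'`, where the constant `C'` does not depend on `d`.

The proof. The additional primes `r` are squares in `ℚ_p` for all `p ≤ Y`, for `p = q` and for all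
the bad primes except of two primes `> Y` for every curve, which divide two of the three differences
of the roots, and they are squares modulo each other. So one of the three differences of the roots is
a square modulo `r` and the two others are not. The conditions at the primes `r` show that a class in
the 2-Selmer group of the twist is ramified at all of them in the same way, and then, as their number
is even and `q` is a good prime, that it is the class of a point of order two. The products of an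
even number of the additional primes are everywhere locally classes of points in the descent by the
2-isogenies, and this gives the large Tate-Shafarevich groups of the two quotients.
-/

set_option autoImplicit false

namespace Pool.Agent.Results.MP_e23604_nt.FiniteUnbounded

open Finset

open Pool.Agent.TH841.SH.D (Sha)

/-- the curve `y² = x³ + A x + B` over `ℚ` -/
def E (A B : ℤ) : WeierstrassCurve ℚ := ⟨0, 0, 0, (A : ℚ), (B : ℚ)⟩

/-- the quadratic twist by `d` of the curve `y² = x³ + A x + B`, `c = (A, B)` -/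
def Tw (d : ℤ) (c : ℤ × ℤ) : WeierstrassCurve ℚ := E (d ^ 2 * c.1) (d ^ 3 * c.2)

/-- `e` is a root of `x³ + A x + B`, `c = (A, B)`: then `(e, 0)` is a point of order two -/
def Root (c : ℤ × ℤ) (e : ℤ) : Prop := e ^ 3 + c.1 * e + c.2 = 0

/-- for a root `e` of `x³ + A x + B`, `c = (A, B)`: the quadratic twist by `d` of the quotient of
`y² = x³ + A x + B` by the subgroup generated by `(e, 0)`. (The quotient is
`y² = x³ - 6 e x² - (3 e² + 4 A) x`: the curve `y² = x³ + a x² + b x`, `a = 3 e`, `b = 3 e² + A`, is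
`y² = x³ + A x + B` with `x + e` in the place of `x`, and its quotient by `(0, 0)` is
`y² = x³ - 2 a x² + (a² - 4 b) x`.) -/
def TwQ (d : ℤ) (c : ℤ × ℤ) (e : ℤ) : WeierstrassCurve ℚ :=
  ⟨0, -6 * ((d : ℚ) * e), 0, -((d : ℚ) ^ 2 * (3 * (e : ℚ) ^ 2 + 4 * (c.1 : ℚ))), 0⟩

open Classical in
/-- The pairs `(A, B)` of integers such that `4 A³ + 27 B² ≠ 0`, there is no prime `p` with
`p⁴ ∣ A` and `p⁶ ∣ B`, the height `max (4 |A|³) (27 B²)` is at most `H`, and `Z/2 x Z/2` embeds in
the group of the rational points of `y² = x³ + A x + B`. (The bounds `|A|, |B| ≤ H` follow from the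
bound of the height. Every elliptic curve over `ℚ` is isomorphic to `E A B` for exactly one pair
with the first two properties.) -/
noncomputable def Fam (H : ℕ) : Finset (ℤ × ℤ) :=
  ((Icc (-(H : ℤ)) H) ×ˢ (Icc (-(H : ℤ)) H)).filter (fun c : ℤ × ℤ =>
    4 * c.1 ^ 3 + 27 * c.2 ^ 2 ≠ 0 ∧ 4 * |c.1| ^ 3 ≤ H ∧ 27 * c.2 ^ 2 ≤ H ∧
    (∀ p : ℕ, p.Prime → ¬ ((p : ℤ) ^ 4 ∣ c.1 ∧ (p : ℤ) ^ 6 ∣ c.2)) ∧
    ∃ f : ZMod 2 × ZMod 2 →+ (E c.1 c.2).toAffine.Point, Function.Injective f)

/-- `W` has finitely many rational points and the 2-primary component of its Tate-Shafarevich group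
is isomorphic to `(ℤ / 2) ^ m` -/
def Elem (W : WeierstrassCurve ℚ) (m : ℕ) : Prop :=
  Finite W.toAffine.Point ∧
    Nonempty (AddCommGroup.primaryComponent (Sha W) 2 ≃+ (Fin m → ZMod 2))

/-- The prime `q` is good for the curves `x 1, …, x k`: for every choice of points `(e i, 0)` of
order two of the curves there are an infinite set `𝒬` of primes which does not contain `q` and a
constant `C` such that for every product `d` of `q` and of `n` different elements of `𝒬`, `n` even:
the twists by `d` of all the curves have finitely many rational points and a Tate-Shafarevich group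
with trivial 2-primary component, and for the two other points of order two the twists of the
quotients have finitely many rational points and a Tate-Shafarevich group whose 2-primary component
is `(ℤ / 2) ^ m` with `n - 3 ≤ m ≤ n + C`. -/
def GoodPrime {k : ℕ} (x : Fin k → ℤ × ℤ) (q : ℕ) : Prop := q.Prime ∧
  ∀ e : Fin k → ℤ, (∀ i, Root (x i) (e i)) → ∃ 𝒬 : Set ℕ, 𝒬.Infinite ∧ (∀ r ∈ 𝒬, r.Prime) ∧
    q ∉ 𝒬 ∧ ∃ C : ℕ, ∀ T : Finset ℕ, (T : Set ℕ) ⊆ 𝒬 → Even T.card → ∀ i,
      Elem (Tw (q * ∏ r ∈ T, r : ℕ) (x i)) 0 ∧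
      ∀ e' : ℤ, Root (x i) e' → e' ≠ e i → ∃ m : ℕ, T.card ≤ m + 3 ∧ m ≤ T.card + C ∧
        Elem (TwQ (q * ∏ r ∈ T, r : ℕ) (x i) e') m

open Classical in
/-- the good primes `q ≤ Q` -/
noncomputable def GQ {k : ℕ} (Q : ℕ) (x : Fin k → ℤ × ℤ) : Finset ℕ :=
  (Icc 1 Q).filter (GoodPrime x)

lemma Fam_eq (H : ℕ) : Fam H = Pool.Agent.W307.RT.Cv 2 H := by
  classical
  unfold Fam Pool.Agent.W307.RT.Cv
  apply filter_congr
  intro c _
  have h : Pool.Agent.W307.RT.HasT 2 (Pool.Agent.W307.RT.Sh c.1 c.2) ↔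
      ∃ f : ZMod 2 × ZMod 2 →+ (E c.1 c.2).toAffine.Point, Function.Injective f :=
    Pool.Agent.W307.RT.tors_iff
  rw [h]

lemma prim_of {G : Type} [AddCommGroup G] (h : ∀ x : G, x + x = 0 → x = 0) :
    AddCommGroup.primaryComponent G 2 = ⊥ := by
  rw [eq_bot_iff]
  intro x hx
  obtain ⟨j, hj⟩ : ∃ j : ℕ, (2 ^ j) • x = 0 := hx
  rw [AddSubgroup.mem_bot]
  induction j with
  | zero => rwa [pow_zero, one_smul] at hj
  | succ j ih =>
    apply ih
    apply h
    rw [← two_nsmul, ← mul_smul, ← pow_succ']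
    exact hj

lemma elem_zero {G : Type} [AddCommGroup G] (h : ∀ x : G, x + x = 0 → x = 0) :
    Nonempty (AddCommGroup.primaryComponent G 2 ≃+ (Fin 0 → ZMod 2)) := by
  rw [prim_of h]
  exact ⟨{ toFun := fun _ => 0
           invFun := fun _ => 0
           left_inv := fun x => Subsingleton.elim _ _
           right_inv := fun x => Subsingleton.elim _ _
           map_add' := fun _ _ => Subsingleton.elim _ _ }⟩

lemma equiv_of {G : Type} [AddCommGroup G] {k : ℕ} (φ : (Fin k → ZMod 2) →+ G)
    (hi : Function.Injective φ) (hr : ∀ x, x ∈ Set.range φ ↔ ∃ j : ℕ, (2 ^ j) • x = 0) :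
    Nonempty (AddCommGroup.primaryComponent G 2 ≃+ (Fin k → ZMod 2)) := by
  have h1 : φ.range = AddCommGroup.primaryComponent G 2 := by
    ext x
    have h2 : x ∈ AddCommGroup.primaryComponent G 2 ↔ ∃ j : ℕ, (2 ^ j) • x = 0 := Iff.rfl
    rw [h2, ← hr, AddMonoidHom.mem_range]
    rfl
  rw [← h1]
  exact ⟨(AddMonoidHom.ofInjective hi).symm⟩

lemma sub_GQ {k : ℕ} (Q : ℕ) (x : Fin k → ℤ × ℤ) : Pool.Agent.K1H97.FU.UQ Q x ⊆ GQ Q x := by
  classical
  intro q hq
  unfold Pool.Agent.K1H97.FU.UQ at hq
  unfold GQ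
  rw [mem_filter] at hq ⊢
  obtain ⟨h1, h2, h3⟩ := hq
  refine ⟨h1, h2, fun e he => ?_⟩
  obtain ⟨𝒬, i1, i2, i3, C, h4⟩ := h3 e he
  refine ⟨𝒬, i1, i2, i3, C, fun T hT hev i => ?_⟩
  have hd : (q : ℤ) * Pool.Agent.K1H97.CU.pT T = ((q * ∏ r ∈ T, r : ℕ) : ℤ) := by
    unfold Pool.Agent.K1H97.CU.pT
    push_cast
    ring
  obtain ⟨g1, g2⟩ := h4 T hT hev i
  rw [hd] at g1 g2
  refine ⟨⟨g1.1, elem_zero g1.2⟩, fun e' he' hne => ?_⟩
  have hW : Pool.Agent.K1H97.FU.QW (((q * ∏ r ∈ T, r : ℕ) : ℤ) ^ 2 * (x i).1)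
      (((q * ∏ r ∈ T, r : ℕ) : ℤ) * e') = TwQ ((q * ∏ r ∈ T, r : ℕ) : ℤ) (x i) e' := by
    unfold Pool.Agent.K1H97.FU.QW TwQ
    congr 1
    · push_cast
      ring
    · push_cast
      ring
  have g3 := g2 e' he' hne
  rw [hW] at g3
  obtain ⟨f1, m, m1, m2, φ, φ1, φ2⟩ := g3
  exact ⟨m, m1, m2, f1, equiv_of φ φ1 φ2⟩

open Classical in
/-- **Theorem.** For every `k ≥ 1` there is a constant `C` such that for every `ε > 0` there is
`κ > 0` such that for all large `H` and all `Q ≥ (log H) ^ C` the following holds for all but at most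
`ε * (#Fam H) ^ k` of the `k`-tuples of elliptic curves over `ℚ` with full rational 2-torsion and
height at most `H`: at least `κ * Q / log Q` primes `q ≤ Q` (a positive proportion of the primes up
to `Q`) are good for the tuple (`GoodPrime`): for every choice of points `P i` of order two there
are an infinite set of primes and a constant `C'` such that for all products `d` of `q` and of an
even number `n` of different primes of the set the twists by `d` of all the curves of the tuple have
rank zero and trivial `Ш[2 ^ ∞]`, and the twists by `d` of the quotients of the curves by the points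
of order two different from `P i` have rank zero and `Ш[2 ^ ∞] = (ℤ / 2) ^ m`,
`n - 3 ≤ m ≤ n + C'`. -/
theorem result (k : ℕ) (hk : 0 < k) : ∃ C : ℕ, ∀ ε : ℝ, 0 < ε → ∃ κ : ℝ, 0 < κ ∧ ∃ H₀ : ℕ,
    ∀ H : ℕ, H₀ ≤ H → ∀ Q : ℕ, (Real.log H) ^ C ≤ Q →
    (((Fintype.piFinset (fun _ : Fin k => Fam H)).filter
      (fun x => ¬ κ * Q / Real.log Q ≤ ((GQ Q x).card : ℝ))).card : ℝ) ≤
        ε * ((Fam H).card : ℝ) ^ k := by
  refine ⟨Pool.Agent.Y676.CE k, fun ε hε => ?_⟩
  obtain ⟨κ, hκ, H₀, h⟩ := Pool.Agent.K1H97.FU.main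
    (Pool.Agent.Y46.KEY.key_of Pool.Agent.Y660.TS.rnk Pool.Agent.Y676.Tsm.tsm)
    Pool.Agent.Y660.TS.mom k hk ε hε
  refine ⟨κ, hκ, H₀, fun H hH Q hQ => ?_⟩
  rw [Fam_eq]
  refine le_trans ?_ (h H hH Q hQ)
  refine Nat.cast_le.2 (card_le_card fun x hx => ?_)
  rw [mem_filter] at hx ⊢
  refine ⟨hx.1, fun h' => hx.2 (h'.trans ?_)⟩
  exact Nat.cast_le.2 (card_le_card (sub_GQ Q x))

end Pool.Agent.Results.MP_e23604_nt.FiniteUnbounded
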