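import Mathlib
import Pool.Agent.K1H97.WA.Main

/-!
# Elliptic curves with prescribed local conditions and trivial 2-primary part of Ш

For every residue class of pairs of integers and every open cone in the plane there are at least
`X² / (log X) ^ C` pairs `(a, b)` of integers in this class and in this cone, `|a|, |b| ≤ X`, such
that the elliptic curve `y² = x (x - a) (x - b)` has finitely many rational points and a
Tate-Shafarevich group without elements of order two. The exponent `C` does not depend on the class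
or on the cone.
-/

set_option autoImplicit false

namespace Pool.Agent.Results.MP_e23604_nt.LocalConditions

open Pool.Agent.TH841.SH.D (Sha)

/-- the curve `y² = x (x - a) (x - b)` over `ℚ` -/
def E (a b : ℤ) : WeierstrassCurve ℚ := ⟨0, -((a : ℚ) + b), 0, (a : ℚ) * b, 0⟩

/-- The pairs `(a, b)` of integers with `|a|, |b| ≤ X` and with the local conditions `a ≡ a₀`,
`b ≡ b₀` modulo `M` (conditions at the primes dividing `M`) and `(a, b) ∈ V` (condition at the real
place) such that `a`, `b`, `0` are different, so that `E a b : y² = x (x - a) (x - b)` is an elliptic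
curve, the group of the rational points of `E a b` is finite and the 2-primary component of its
Tate-Shafarevich group is zero -/
def Good (M : ℕ) (a₀ b₀ : ℤ) (V : Set (ℝ × ℝ)) (X : ℕ) : Set (ℤ × ℤ) :=
  {t | |t.1| ≤ X ∧ |t.2| ≤ X ∧ t.1 ≡ a₀ [ZMOD M] ∧ t.2 ≡ b₀ [ZMOD M] ∧
    ((t.1 : ℝ), (t.2 : ℝ)) ∈ V ∧ t.1 ≠ 0 ∧ t.2 ≠ 0 ∧ t.1 ≠ t.2 ∧
    Finite (E t.1 t.2).toAffine.Point ∧ AddCommGroup.primaryComponent (Sha (E t.1 t.2)) 2 = ⊥}

lemma prim_of {G : Type} [AddCommGroup G] (h : ∀ x : G, x + x = 0 → x = 0) :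
    AddCommGroup.primaryComponent G 2 = ⊥ := by
  rw [eq_bot_iff]
  intro x hx
  obtain ⟨j, hj⟩ : ∃ j : ℕ, (2 ^ j) • x = 0 := hx
  rw [AddSubgroup.mem_bot]
  induction j with
  | zero => rwa [pow_zero, one_smul] at hj
  | succ j ih =>
    apply ih
    apply h
    rw [← two_nsmul, ← mul_smul, ← pow_succ']
    exact hj

/-- **Theorem.** There is a constant `C` such that for every modulus `M`, all residue classes `a₀`,
`b₀` modulo `M` and every nonempty open cone `V` in the plane the following holds for all large `X`: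
there are at least `X² / (log X) ^ C` pairs `(a, b)` of integers with `|a|, |b| ≤ X`, `a ≡ a₀`,
`b ≡ b₀` modulo `M` and `(a, b) ∈ V` such that `y² = x (x - a) (x - b)` is an elliptic curve with
finitely many rational points for which the 2-primary component of `Ш` is zero. -/
theorem result : ∃ C : ℕ, ∀ M : ℕ, 0 < M → ∀ (a₀ b₀ : ℤ) (V : Set (ℝ × ℝ)), IsOpen V → V.Nonempty →
    (∀ v ∈ V, ∀ u : ℝ, 0 < u → u • v ∈ V) → ∃ X₀ : ℕ, ∀ X : ℕ, X₀ ≤ X →
      (X : ℝ) ^ 2 / (Real.log X) ^ C ≤ ((Good M a₀ b₀ V X).ncard : ℝ) := by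
  classical
  refine ⟨Pool.Agent.K1H97.WA.CC, fun M hM a₀ b₀ V hV hne hcone => ?_⟩
  obtain ⟨⟨α, β⟩, hv⟩ := hne
  obtain ⟨δ, hδ, hball⟩ := Metric.isOpen_iff.1 hV _ hv
  obtain ⟨X₀, hX₀⟩ := Pool.Agent.K1H97.WA.count M hM a₀ b₀ α β δ hδ
  refine ⟨X₀, fun X hX => (hX₀ X hX).trans ?_⟩
  have hfin : (Good M a₀ b₀ V X).Finite := by
    refine ((Set.finite_Icc (-(X : ℤ)) X).prod (Set.finite_Icc (-(X : ℤ)) X)).subset ?_
    intro t ht
    exact ⟨abs_le.1 ht.1, abs_le.1 ht.2.1⟩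
  have hsub : (((Pool.Agent.Y676.Bx X).filter (fun t => Pool.Agent.K1H97.WA.LC M a₀ b₀ α β δ t ∧
      Pool.Agent.K1H97.WA.Tr (t.1 : ℚ) (t.2 : ℚ)) : Finset (ℤ × ℤ)) : Set (ℤ × ℤ)) ⊆
      Good M a₀ b₀ V X := by
    intro t ht
    rw [Finset.mem_coe, Finset.mem_filter, Pool.Agent.Y676.mem_Bx] at ht
    obtain ⟨⟨⟨h1, h2⟩, h3, h4, h5⟩, h6, h7⟩ := ht
    obtain ⟨u, hu, hu1, hu2⟩ := h6.re
    refine ⟨abs_le.2 h1, abs_le.2 h2, h6.ca, h6.cb, ?_, h3, h4, h5, h7.fin, prim_of h7.sha⟩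
    have hin : (u⁻¹ * (t.1 : ℝ), u⁻¹ * (t.2 : ℝ)) ∈ V := by
      have hw : ∀ z γ : ℝ, |z - u * γ| < u * δ → |u⁻¹ * z - γ| < δ := by
        intro z γ hz
        have e : u⁻¹ * z - γ = u⁻¹ * (z - u * γ) := by
          rw [mul_sub, inv_mul_cancel_left₀ hu.ne']
        rw [e, abs_mul, abs_of_pos (inv_pos.2 hu)]
        calc u⁻¹ * |z - u * γ| < u⁻¹ * (u * δ) := mul_lt_mul_of_pos_left hz (inv_pos.2 hu)
          _ = δ := inv_mul_cancel_left₀ hu.ne' _
      apply hball
      rw [Metric.mem_ball, Prod.dist_eq, max_lt_iff, Real.dist_eq, Real.dist_eq]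
      exact ⟨hw _ _ hu1, hw _ _ hu2⟩
    have := hcone _ hin u hu
    rw [Prod.smul_mk, smul_eq_mul, smul_eq_mul, mul_inv_cancel_left₀ hu.ne',
      mul_inv_cancel_left₀ hu.ne'] at this
    exact this
  have h := Set.ncard_le_ncard hsub hfin
  rw [Set.ncard_coe_finset] at h
  exact_mod_cast h

end Pool.Agent.Results.MP_e23604_nt.LocalConditions
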