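import Mathlib
import Pool.Agent.K1H97.CU.Main
import Pool.Agent.Y676.Tsm
import Pool.Agent.Y660.TS.Rnk
import Pool.Agent.Y660.TS.Mom
import Pool.Agent.Y46.KEY.Key
import Pool.Agent.W307.RT.Tors

/-!
# Infinite sets of primes all of whose odd products are twists with trivial 2-primary part of Ш

For almost all elliptic curves `E` over `ℚ` with full rational 2-torsion, ordered by height, and for a
positive proportion of the primes `q` up to any bound `Q ≥ (log H) ^ C`, there is an infinite set of
primes that contains `q`, such that for every product `d` of an odd number of different primes of the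
set the twist of `E` by `d` has finitely many rational points and no element of order two in its
Tate-Shafarevich group.

The proof. All the primes `q'` of the set are in the class of `q` modulo `8 Y!` times the product of
the bad primes, and all the symbols `(q' | q'')` are equal to the same constant `x`. If a class in the
2-Selmer group of the twist by `d` is ramified at the primes `q'` of `d` in the direction `a(q')`, a
vector in the space `E[2]` over the field with two elements, then, as the number of the primes is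
odd and `q` is a good prime, the class is determined by these vectors, and the local conditions at
the primes `q'` are the equations `(x + N) (a(q') - ∑ a) = 0` with one and the same two by two matrix
`N`, made of the symbols of `A`, `B`, `A - B` at `q`. There is `x` for which `x + N` is invertible, and
then the classes are those of the points of order two.
-/

set_option autoImplicit false

namespace Pool.Agent.Results.MP_e23604_nt.OddProductTwists

open Finset

open Pool.Agent.TH841.SH.D (Sha)

/-- the curve `y² = x³ + A x + B` over `ℚ` -/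
def E (A B : ℤ) : WeierstrassCurve ℚ := ⟨0, 0, 0, (A : ℚ), (B : ℚ)⟩

/-- the quadratic twist by `d` of the curve `y² = x³ + A x + B`, `c = (A, B)` -/
def Tw (d : ℤ) (c : ℤ × ℤ) : WeierstrassCurve ℚ := E (d ^ 2 * c.1) (d ^ 3 * c.2)

open Classical in
/-- The pairs `(A, B)` of integers such that `4 A³ + 27 B² ≠ 0`, there is no prime `p` with
`p⁴ ∣ A` and `p⁶ ∣ B`, the height `max (4 |A|³) (27 B²)` is at most `H`, and `Z/2 x Z/2` embeds in
the group of the rational points of `y² = x³ + A x + B`. (The bounds `|A|, |B| ≤ H` follow from the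
bound of the height. Every elliptic curve over `ℚ` is isomorphic to `E A B` for exactly one pair
with the first two properties.) -/
noncomputable def Fam (H : ℕ) : Finset (ℤ × ℤ) :=
  ((Icc (-(H : ℤ)) H) ×ˢ (Icc (-(H : ℤ)) H)).filter (fun c : ℤ × ℤ =>
    4 * c.1 ^ 3 + 27 * c.2 ^ 2 ≠ 0 ∧ 4 * |c.1| ^ 3 ≤ H ∧ 27 * c.2 ^ 2 ≤ H ∧
    (∀ p : ℕ, p.Prime → ¬ ((p : ℤ) ^ 4 ∣ c.1 ∧ (p : ℤ) ^ 6 ∣ c.2)) ∧
    ∃ f : ZMod 2 × ZMod 2 →+ (E c.1 c.2).toAffine.Point, Function.Injective f)

/-- `W` has finitely many rational points and the 2-primary component of its Tate-Shafarevich group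
is zero -/
def Settled (W : WeierstrassCurve ℚ) : Prop :=
  Finite W.toAffine.Point ∧ AddCommGroup.primaryComponent (Sha W) 2 = ⊥

/-- `𝒬` is an infinite set of primes, and the twist of `E` by every product of an odd number of
different elements of `𝒬` is settled -/
def OddGood (c : ℤ × ℤ) (𝒬 : Set ℕ) : Prop := 𝒬.Infinite ∧ (∀ q ∈ 𝒬, q.Prime) ∧
  ∀ T : Finset ℕ, (T : Set ℕ) ⊆ 𝒬 → Odd T.card → Settled (Tw (∏ q ∈ T, q : ℕ) c)

open Classical in
/-- the primes `q ≤ Q` which are elements of such sets -/
noncomputable def PQ (Q : ℕ) (c : ℤ × ℤ) : Finset ℕ :=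
  (Icc 1 Q).filter (fun q => ∃ 𝒬 : Set ℕ, q ∈ 𝒬 ∧ OddGood c 𝒬)

lemma Fam_eq (H : ℕ) : Fam H = Pool.Agent.W307.RT.Cv 2 H := by
  classical
  unfold Fam Pool.Agent.W307.RT.Cv
  apply filter_congr
  intro c _
  have h : Pool.Agent.W307.RT.HasT 2 (Pool.Agent.W307.RT.Sh c.1 c.2) ↔
      ∃ f : ZMod 2 × ZMod 2 →+ (E c.1 c.2).toAffine.Point, Function.Injective f :=
    Pool.Agent.W307.RT.tors_iff
  rw [h]

lemma prim_of {G : Type} [AddCommGroup G] (h : ∀ x : G, x + x = 0 → x = 0) :
    AddCommGroup.primaryComponent G 2 = ⊥ := by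
  rw [eq_bot_iff]
  intro x hx
  obtain ⟨j, hj⟩ : ∃ j : ℕ, (2 ^ j) • x = 0 := hx
  rw [AddSubgroup.mem_bot]
  induction j with
  | zero => rwa [pow_zero, one_smul] at hj
  | succ j ih =>
    apply ih
    apply h
    rw [← two_nsmul, ← mul_smul, ← pow_succ']
    exact hj

lemma sub_PQ (Q : ℕ) (c : ℤ × ℤ) : Pool.Agent.K1H97.CU.CQ Q c ⊆ PQ Q c := by
  classical
  intro q hq
  unfold Pool.Agent.K1H97.CU.CQ at hq
  unfold PQ
  rw [mem_filter] at hq ⊢
  obtain ⟨h1, 𝒬, h2, h3, h4, h5⟩ := hq
  exact ⟨h1, 𝒬, h2, h3, h4, fun T hT hod => ⟨(h5 T hT hod).1, prim_of (h5 T hT hod).2⟩⟩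

open Classical in
/-- **Theorem.** There is a constant `C` such that for every `ε > 0` there is `κ > 0` such that for
all large `H` and all `Q ≥ (log H) ^ C` the following holds for all but at most `ε * #Fam H` of the
elliptic curves `E` over `ℚ` with full rational 2-torsion and height at most `H`: for at least
`κ * Q / log Q` primes `q ≤ Q` (a positive proportion of the primes up to `Q`) there is an infinite
set of primes that contains `q`, such that for every product `d` of an odd number of different
primes of the set the quadratic twist of `E` by `d` has finitely many rational points and trivial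
2-primary Tate-Shafarevich group. -/
theorem result : ∃ C : ℕ, ∀ ε : ℝ, 0 < ε → ∃ κ : ℝ, 0 < κ ∧ ∃ H₀ : ℕ, ∀ H : ℕ, H₀ ≤ H →
    ∀ Q : ℕ, (Real.log H) ^ C ≤ Q →
    (((Fam H).filter (fun c => ¬ κ * Q / Real.log Q ≤ ((PQ Q c).card : ℝ))).card : ℝ) ≤
      ε * ((Fam H).card : ℝ) := by
  refine ⟨Pool.Agent.Y676.CE 1, fun ε hε => ?_⟩
  obtain ⟨κ, hκ, H₀, h⟩ := Pool.Agent.K1H97.CU.main
    (Pool.Agent.Y46.KEY.key_of Pool.Agent.Y660.TS.rnk Pool.Agent.Y676.Tsm.tsm)
    Pool.Agent.Y660.TS.mom ε hε
  refine ⟨κ, hκ, H₀, fun H hH Q hQ => ?_⟩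
  rw [Fam_eq]
  refine le_trans ?_ (h H hH Q hQ)
  refine Nat.cast_le.2 (card_le_card fun c hc => ?_)
  rw [mem_filter] at hc ⊢
  refine ⟨hc.1, fun h' => hc.2 (h'.trans ?_)⟩
  exact Nat.cast_le.2 (card_le_card (sub_PQ Q c))

end Pool.Agent.Results.MP_e23604_nt.OddProductTwists
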